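import Pool.Agent.R592.Pk.Main
import Pool.Agent.R592.Sl.Ground

/-!
# The four numbers in the ground model, and the choice of the parameters
-/

set_option autoImplicit false
set_option linter.unusedSectionVars false

namespace Pool.Agent.R592.Pk

open Cardinal Set
open Pool.Agent.TH773.PSet Pool.Agent.R593.Rnd Pool.Agent.R592.Ent Pool.Agent.R592.Sl

/-! ### The notions of the problem -/

/-- `A ≤_K J` -/
def KatLe (A J : Set (Set ℕ)) : Prop := ∃ f : ℕ → ℕ, ∀ a ∈ A, f ⁻¹' a ∈ J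

/-- `A` generates an ideal: no finite union of members of `A` is cofinite. -/
def Generates (A : Set (Set ℕ)) : Prop := ∀ F ⊆ A, F.Finite → ¬ (⋃₀ F)ᶜ.Finite

/-- the minimum of a set of cardinals, which is `∞` if the set is empty -/
noncomputable def cmin (F : Set Cardinal.{0}) : WithTop Cardinal.{0} :=
  ⨅ κ ∈ F, (κ : WithTop Cardinal.{0})

/-- `𝔰𝔩ₑ(I, J)` -/
noncomputable def slE (I J : Set (Set ℕ)) : WithTop Cardinal.{0} :=
  cmin {κ | ∃ S : Set (ℕ → Set ℕ), (∀ s ∈ S, ∀ n, s n ∈ I) ∧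
    (∀ x : ℕ → ℕ, ∃ s ∈ S, {n | x n ∈ s n} ∉ J) ∧ #S = κ}

/-- `𝔰𝔩ₑ(⋆, J)` -/
noncomputable def slStar (J : Set (Set ℕ)) : WithTop Cardinal.{0} :=
  ⨅ I ∈ {I : Set (Set ℕ) | Ideal' I}, slE I J

/-- `𝔭_K(I, J)` -/
noncomputable def pK (I J : Set (Set ℕ)) : WithTop Cardinal.{0} :=
  cmin {κ | ∃ A : Set (Set ℕ), A ⊆ I ∧ ¬ KatLe A J ∧ #A = κ}

/-- `𝔭_K(⋆, J)` -/
noncomputable def pKStar (J : Set (Set ℕ)) : WithTop Cardinal.{0} :=
  cmin {κ | ∃ A : Set (Set ℕ), Generates A ∧ ¬ KatLe A J ∧ #A = κ}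

/-- `J₀ ⊕ J₁`, moved to `ω` by the bijection `e`. -/
def Osum (e : Bool × ℕ ≃ ℕ) (J₀ J₁ : Set (Set ℕ)) : Set (Set ℕ) :=
  {A | {n | e (false, n) ∈ A} ∈ J₀ ∧ {n | e (true, n) ∈ A} ∈ J₁}

/-! ### Facts about these numbers -/

theorem cmin_le {F : Set Cardinal.{0}} {ν : Cardinal.{0}} :
    cmin F ≤ (ν : WithTop Cardinal.{0}) ↔ ∃ κ ∈ F, κ ≤ ν := by
  constructor
  · intro h
    by_contra hcon
    push Not at hcon
    have h1 : ((Order.succ ν : Cardinal.{0}) : WithTop Cardinal.{0}) ≤ cmin F :=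
      le_iInf₂ fun κ hκ => WithTop.coe_le_coe.2 (Order.succ_le_of_lt (hcon κ hκ))
    have h2 := WithTop.coe_le_coe.1 (h1.trans h)
    exact absurd (Order.lt_succ ν) (not_lt.2 h2)
  · rintro ⟨κ, hκ, h⟩
    exact (iInf₂_le κ hκ).trans (WithTop.coe_le_coe.2 h)

theorem slStar_le {J : Set (Set ℕ)} {ν : Cardinal.{0}} :
    slStar J ≤ (ν : WithTop Cardinal.{0}) ↔
      ∃ I, Ideal' I ∧ slE I J ≤ (ν : WithTop Cardinal.{0}) := by
  constructor
  · intro h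
    by_contra hcon
    push Not at hcon
    have h1 : ((Order.succ ν : Cardinal.{0}) : WithTop Cardinal.{0}) ≤ slStar J := by
      refine le_iInf₂ fun I hI => le_iInf₂ fun κ hκ => WithTop.coe_le_coe.2 ?_
      refine Order.succ_le_of_lt (not_le.1 fun h' => ?_)
      exact absurd (cmin_le.2 ⟨κ, hκ, h'⟩) (not_le.2 (hcon I hI))
    have h2 := WithTop.coe_le_coe.1 (h1.trans h)
    exact absurd (Order.lt_succ ν) (not_lt.2 h2)
  · rintro ⟨I, hI, h⟩
    exact (iInf₂_le I hI).trans h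

theorem lt_cmin {F : Set Cardinal.{0}} {ν : Cardinal.{0}} (h : ∀ κ ∈ F, ν < κ) :
    (ν : WithTop Cardinal.{0}) < cmin F := by
  rw [← not_le, cmin_le]
  rintro ⟨κ, hκ, h'⟩
  exact absurd h' (not_le.2 (h κ hκ))

theorem ideal_inter {J₀ J₁ : Set (Set ℕ)} (h0 : Ideal' J₀) (h1 : Ideal' J₁) :
    Ideal' (J₀ ∩ J₁) where
  finite A hA := ⟨h0.finite A hA, h1.finite A hA⟩
  down A B hAB hB := ⟨h0.down A B hAB hB.1, h1.down A B hAB hB.2⟩
  union A B hA hB := ⟨h0.union A B hA.1 hB.1, h1.union A B hA.2 hB.2⟩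
  proper h := h0.proper h.1

theorem ideal_osum (e : Bool × ℕ ≃ ℕ) {J₀ J₁ : Set (Set ℕ)} (h0 : Ideal' J₀) (h1 : Ideal' J₁) :
    Ideal' (Osum e J₀ J₁) where
  finite A hA := by
    have h : ∀ b, {n | e (b, n) ∈ A}.Finite := fun b =>
      hA.preimage (f := fun n => e (b, n)) (fun n _ m _ h => by
        simpa using e.injective h)
    exact ⟨h0.finite _ (h false), h1.finite _ (h true)⟩
  down A B hAB hB := by
    refine ⟨h0.down {n | e (false, n) ∈ A} {n | e (false, n) ∈ B} (fun n hn => ?_) hB.1,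
      h1.down {n | e (true, n) ∈ A} {n | e (true, n) ∈ B} (fun n hn => ?_) hB.2⟩
    · exact hAB hn
    · exact hAB hn
  union A B hA hB := ⟨h0.union _ _ hA.1 hB.1, h1.union _ _ hA.2 hB.2⟩
  proper h := h0.proper (by
    have := h.1
    simpa using this)

/-- `𝔰𝔩ₑ(I, J) ≤ 𝔭_K(I, J)` -/
theorem slE_le_pK (I J : Set (Set ℕ)) : slE I J ≤ pK I J := by
  refine le_iInf₂ fun κ hκ => ?_
  obtain ⟨A, hA, hAJ, rfl⟩ := hκ
  refine cmin_le.2 ⟨#(range fun a : A => fun _ : ℕ => a.1), ⟨range fun a : A => fun _ : ℕ => a.1,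
    ?_, fun x => ?_, rfl⟩, mk_range_le⟩
  · rintro _ ⟨a, rfl⟩ n
    exact hA a.2
  · by_contra hcon
    push Not at hcon
    exact hAJ ⟨x, fun a ha => hcon (fun _ => a) ⟨⟨a, ha⟩, rfl⟩⟩

theorem slStar_le_slE {I : Set (Set ℕ)} (hI : Ideal' I) (J : Set (Set ℕ)) :
    slStar J ≤ slE I J := iInf₂_le I hI

theorem pKStar_le_pK {I : Set (Set ℕ)} (hI : Ideal' I) (J : Set (Set ℕ)) :
    pKStar J ≤ pK I J := by
  refine le_iInf₂ fun κ hκ => ?_
  obtain ⟨A, hA, hAJ, rfl⟩ := hκ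
  refine cmin_le.2 ⟨#A, ⟨A, fun F hF hFf hc => ?_, hAJ, rfl⟩, le_rfl⟩
  have h1 : ⋃₀ F ∈ I := by
    have h2 : ∀ F' ⊆ F, F'.Finite → ⋃₀ F' ∈ I := by
      intro F' hF' hfin
      induction F', hfin using Set.Finite.induction_on with
      | empty =>
        rw [sUnion_empty]
        exact hI.finite _ finite_empty
      | insert _ _ ih =>
        rw [sUnion_insert]
        exact hI.union _ _ (hA (hF (hF' (mem_insert _ _))))
          (ih ((subset_insert _ _).trans hF'))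
    exact h2 F subset_rfl hFf
  have h3 := hI.union _ _ h1 (hI.finite _ hc)
  rw [union_compl_self] at h3
  exact hI.proper h3

/-- `𝔰𝔩ₑ(⋆, J) ≤ 𝔭_K(⋆, J)` -/
theorem slStar_le_pKStar (J : Set (Set ℕ)) : slStar J ≤ pKStar J := by
  refine le_iInf₂ fun κ hκ => ?_
  obtain ⟨A, hA, hAJ, rfl⟩ := hκ
  let I : Set (Set ℕ) := {B | ∃ F ⊆ A, F.Finite ∧ (B \ ⋃₀ F).Finite}
  have hI : Ideal' I := by
    refine ⟨fun B hB => ⟨∅, empty_subset _, finite_empty, hB.subset sdiff_subset⟩,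
      fun B C hBC ⟨F, hF, hFf, hC⟩ => ⟨F, hF, hFf, hC.subset (sdiff_subset_sdiff_left hBC)⟩,
      fun B C ⟨F, hF, hFf, hB⟩ ⟨G, hG, hGf, hC⟩ => ⟨F ∪ G, union_subset hF hG, hFf.union hGf, ?_⟩,
      fun ⟨F, hF, hFf, h⟩ => hA F hF hFf ?_⟩
    · refine (hB.union hC).subset ?_
      rintro n ⟨hn | hn, hn'⟩
      · exact Or.inl ⟨hn, fun h => hn' (by rw [sUnion_union]; exact Or.inl h)⟩
      · exact Or.inr ⟨hn, fun h => hn' (by rw [sUnion_union]; exact Or.inr h)⟩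
    · rwa [compl_eq_univ_sdiff]
  refine (slStar_le_slE hI J).trans ((slE_le_pK I J).trans (cmin_le.2 ⟨#A, ⟨A, fun a ha => ?_,
    hAJ, rfl⟩, le_rfl⟩))
  refine ⟨{a}, singleton_subset_iff.2 ha, finite_singleton a, ?_⟩
  rw [sUnion_singleton, sdiff_self]
  exact finite_empty

theorem lt_slE_osum (e : Bool × ℕ ≃ ℕ) {J₀ J₁ : Set (Set ℕ)} {ν : Cardinal.{0}}
    (h0 : (ν : WithTop Cardinal.{0}) < slStar J₀) (h1 : (ν : WithTop Cardinal.{0}) < slStar J₁)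
    {I : Set (Set ℕ)} (hI : Ideal' I) : (ν : WithTop Cardinal.{0}) < slE I (Osum e J₀ J₁) := by
  refine lt_cmin fun κ hκ => ?_
  obtain ⟨S, hS, hx, rfl⟩ := hκ
  by_contra hle
  rw [not_lt] at hle
  have key : ∀ (b : Bool) (J : Set (Set ℕ)), (ν : WithTop Cardinal.{0}) < slStar J →
      ∃ x : ℕ → ℕ, ∀ s ∈ S, {n | x n ∈ s (e (b, n))} ∈ J := by
    intro b J hJ
    by_contra hcon
    push Not at hcon
    refine absurd (slStar_le.2 ⟨I, hI, cmin_le.2 ⟨#(range fun s : S => fun n => s.1 (e (b, n))),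
      ⟨range fun s : S => fun n => s.1 (e (b, n)), ?_, fun x => ?_, rfl⟩,
      mk_range_le.trans hle⟩⟩) (not_le.2 hJ)
    · rintro _ ⟨s, rfl⟩ n
      exact hS s.1 s.2 _
    · obtain ⟨s, hs, h⟩ := hcon x
      exact ⟨_, ⟨⟨s, hs⟩, rfl⟩, h⟩
  obtain ⟨x0, hx0⟩ := key false J₀ h0
  obtain ⟨x1, hx1⟩ := key true J₁ h1
  obtain ⟨s, hs, h⟩ := hx fun m => if (e.symm m).1 then x1 (e.symm m).2 else x0 (e.symm m).2
  apply h
  constructor
  · simpa using hx0 s hs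
  · simpa using hx1 s hs

/-- All four equalities fail for the ideals `I`, `J₀`, `J₁`. -/
theorem all_fail (e : Bool × ℕ ≃ ℕ) {I J₀ J₁ : Set (Set ℕ)} (hI : Ideal' I) {ν : Cardinal.{0}}
    (h : pK I (J₀ ∩ J₁) ≤ (ν : WithTop Cardinal.{0}))
    (h0 : (ν : WithTop Cardinal.{0}) < slStar J₀) (h1 : (ν : WithTop Cardinal.{0}) < slStar J₁) :
    slE I (J₀ ∩ J₁) < slE I (Osum e J₀ J₁) ∧ pK I (J₀ ∩ J₁) < pK I (Osum e J₀ J₁) ∧
    slStar (J₀ ∩ J₁) < slStar (Osum e J₀ J₁) ∧ pKStar (J₀ ∩ J₁) < pKStar (Osum e J₀ J₁) := by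
  have hs : (ν : WithTop Cardinal.{0}) < slStar (Osum e J₀ J₁) := by
    rw [← not_le, slStar_le]
    rintro ⟨I', hI', h'⟩
    exact absurd h' (not_le.2 (lt_slE_osum e h0 h1 hI'))
  have hs2 : (ν : WithTop Cardinal.{0}) < slE I (Osum e J₀ J₁) := lt_slE_osum e h0 h1 hI
  refine ⟨((slE_le_pK _ _).trans h).trans_lt hs2, h.trans_lt (hs2.trans_le (slE_le_pK _ _)),
    ((slStar_le_slE hI _).trans ((slE_le_pK _ _).trans h)).trans_lt hs,
    ((pKStar_le_pK hI _).trans h).trans_lt (hs.trans_le (slStar_le_pKStar _))⟩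

/-! ### The meaning of the sentences -/

theorem e2_inter (F G : FName Unit) : e2 (Inter F G) = e2 F ∩ e2 G := by
  ext A
  have h1 : ∀ H : FName Unit, A ∈ e2 H ↔ () ∈ H (e.symm A) := fun H => Iff.rfl
  rw [h1]
  show () ∈ Mem (e.symm A) F ∧ () ∈ Mem (e.symm A) G ↔ _
  rw [u_Mem, u_Mem, e.apply_symm_apply]
  rfl

theorem unit_pre {x : ℕ → ℕ → Set Unit} {a : RName Unit} {x' : ℕ → ℕ}
    (hx : ∀ n k, () ∈ x n k ↔ x' n = k) : e (Pre x a) = x' ⁻¹' (e a) := by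
  ext n
  simp only [mem_e, Pre, unit_fex, mem_fand, unit_meets, hx, mem_preimage]
  exact ⟨fun ⟨k, hk, hk'⟩ => hk ▸ hk', fun h => ⟨_, rfl, h⟩⟩

theorem unit_cap' {x : ℕ → ℕ → Set Unit} {s : ℕ → RName Unit} {x' : ℕ → ℕ}
    (hx : ∀ n k, () ∈ x n k ↔ x' n = k) : e (Cap x s) = {n | x' n ∈ e (s n)} := by
  ext n
  simp only [mem_e, Cap, unit_fex, mem_fand, unit_meets, hx, mem_ofPred_eq]
  exact ⟨fun ⟨k, hk, hk'⟩ => hk ▸ hk', fun h => ⟨_, rfl, h⟩⟩

theorem unit_pkLe {I J : FName Unit} {Y : Type} :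
    () ∈ PkLe I J Y ↔ pK (e2 I) (e2 J) ≤ ((#Y : Cardinal.{0}) : WithTop Cardinal.{0}) := by
  unfold pK
  rw [cmin_le]
  simp only [PkLe, unit_fex, mem_fand, mem_fall, unit_fimp, unit_isFun, unit_fnot, u_Mem]
  constructor
  · rintro ⟨B, h1, h2⟩
    refine ⟨#(range fun y => e (B y)), ⟨range fun y => e (B y), ?_, ?_, rfl⟩, mk_range_le⟩
    · rintro _ ⟨y, rfl⟩
      exact h1 y
    · rintro ⟨x, hx⟩
      obtain ⟨y, hy⟩ := h2 (fun n k => {_p | x n = k}) ⟨x, fun _ _ => Iff.rfl⟩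
      rw [unit_pre (x' := x) (fun _ _ => Iff.rfl)] at hy
      exact hy (hx _ ⟨y, rfl⟩)
  · rintro ⟨κ, ⟨A, hA, h1, rfl⟩, hle⟩
    obtain ⟨f⟩ := hle
    have h2 : ∀ x : ℕ → ℕ, ∃ a ∈ A, x ⁻¹' a ∉ e2 J := by
      intro x
      by_contra hcon
      push Not at hcon
      exact h1 ⟨x, hcon⟩
    obtain ⟨a0, ha0, -⟩ := h2 (fun _ => 0)
    have : Nonempty A := ⟨⟨a0, ha0⟩⟩
    refine ⟨fun y => e.symm (Function.invFun f y).1, fun y => ?_, ?_⟩
    · rw [e.apply_symm_apply]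
      exact hA (Function.invFun f y).2
    · rintro x ⟨x', hx'⟩
      obtain ⟨a, ha, ha'⟩ := h2 x'
      refine ⟨f ⟨a, ha⟩, ?_⟩
      rw [unit_pre (x' := x') fun n k => hx' n k, e.apply_symm_apply,
        Function.leftInverse_invFun f.injective]
      exact ha'

theorem unit_slLe {I J : FName Unit} {Y : Type} :
    () ∈ SlLe I J Y ↔ slE (e2 I) (e2 J) ≤ ((#Y : Cardinal.{0}) : WithTop Cardinal.{0}) := by
  unfold slE
  rw [cmin_le]
  simp only [SlLe, unit_fex, mem_fand, mem_fall, unit_fimp, unit_isFun, unit_fnot, u_Mem]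
  constructor
  · rintro ⟨D, h1, h2⟩
    refine ⟨#(range fun y => fun n => e (D y n)), ⟨range fun y => fun n => e (D y n), ?_,
      fun x => ?_, rfl⟩, mk_range_le⟩
    · rintro _ ⟨y, rfl⟩ n
      exact h1 y n
    · obtain ⟨y, hy⟩ := h2 (fun n k => {_p | x n = k}) ⟨x, fun _ _ => Iff.rfl⟩
      rw [unit_cap' (x' := x) (fun _ _ => Iff.rfl)] at hy
      exact ⟨_, ⟨y, rfl⟩, hy⟩
  · rintro ⟨κ, ⟨S, hS, h1, rfl⟩, hle⟩
    obtain ⟨f⟩ := hle
    obtain ⟨s0, hs0, -⟩ := h1 (fun _ => 0)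
    have : Nonempty S := ⟨⟨s0, hs0⟩⟩
    refine ⟨fun y n => e.symm ((Function.invFun f y).1 n), fun y n => ?_, ?_⟩
    · rw [e.apply_symm_apply]
      exact hS (Function.invFun f y).1 (Function.invFun f y).2 n
    · rintro x ⟨x', hx'⟩
      obtain ⟨s, hs, hs'⟩ := h1 x'
      refine ⟨f ⟨s, hs⟩, ?_⟩
      rw [unit_cap' (x' := x') fun n k => hx' n k]
      simp only [e.apply_symm_apply, Function.leftInverse_invFun f.injective _]
      exact hs'

theorem unit_slStarLe {J : FName Unit} {Y : Type} :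
    () ∈ SlStarLe J Y ↔ slStar (e2 J) ≤ ((#Y : Cardinal.{0}) : WithTop Cardinal.{0}) := by
  rw [slStar_le]
  simp only [SlStarLe, unit_fex, mem_fand, unit_isIdeal, unit_slLe]
  exact ⟨fun ⟨I, hI, h⟩ => ⟨e2 I, hI, h⟩, fun ⟨I, hI, h⟩ => ⟨e2.symm I, by
    rwa [e2.apply_symm_apply], by rwa [e2.apply_symm_apply]⟩⟩

/-- **The meaning of the sentence `Model`.** -/
theorem unit_model {Y : Type} {p : Unit} : p ∈ Model Unit Y ↔
    ∃ I J₀ J₁, Ideal' I ∧ Ideal' J₀ ∧ Ideal' J₁ ∧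
      pK I (J₀ ∩ J₁) ≤ ((#Y : Cardinal.{0}) : WithTop Cardinal.{0}) ∧
      ((#Y : Cardinal.{0}) : WithTop Cardinal.{0}) < slStar J₀ ∧
      ((#Y : Cardinal.{0}) : WithTop Cardinal.{0}) < slStar J₁ := by
  obtain rfl : p = () := rfl
  simp only [Model, unit_fex, mem_fand, unit_isIdeal, unit_pkLe, unit_fnot, unit_slStarLe,
    e2_inter, not_le]
  constructor
  · rintro ⟨I, J₀, J₁, h⟩
    exact ⟨e2 I, e2 J₀, e2 J₁, h⟩
  · rintro ⟨I, J₀, J₁, h⟩
    refine ⟨e2.symm I, e2.symm J₀, e2.symm J₁, ?_⟩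
    simp only [e2.apply_symm_apply]
    exact h

/-! ### The choice of the parameters -/

theorem exists_code {P : Type} [Preorder P] (hP : Ccc P) {R : Type} (g : R → P)
    (hg : ∀ p, ∃ r, g r ≤ p ∧ p ≤ g r) (X : Set P) :
    ∃ A : ℕ → Option R, meets {q | ∃ k, ∃ r, A k = some r ∧ q = g r} = meets X := by
  obtain ⟨A, hA, hAD, hA'⟩ := exists_countable hP (meets X ∩ range g)
  have h2 : ∃ A' : ℕ → Option R, {q | ∃ k, ∃ r, A' k = some r ∧ q = g r} = A := by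
    rcases A.eq_empty_or_nonempty with rfl | hne
    · refine ⟨fun _ => none, ?_⟩
      ext q
      simp
    · obtain ⟨f, hf⟩ := hA.exists_eq_range hne
      have h3 : ∀ k, ∃ r, g r = f k := fun k => (hAD (hf ▸ mem_range_self k)).2
      choose F hF using h3
      refine ⟨fun k => some (F k), ?_⟩
      rw [hf]
      ext q
      constructor
      · rintro ⟨k, r, hr, rfl⟩
        rw [Option.some.injEq] at hr
        exact ⟨k, by rw [← hF k, hr]⟩
      · rintro ⟨k, rfl⟩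
        exact ⟨k, F k, rfl, (hF k).symm⟩
  obtain ⟨A', hA''⟩ := h2
  refine ⟨A', ?_⟩
  rw [hA'', meets_eq_of (fun a ha => (hAD ha).1) (fun d hd => ?_) (reg_meets _).1, meets_meets]
  obtain ⟨r, hr, hr'⟩ := hg d
  obtain ⟨a, ha, s, hs, hs'⟩ := hA' (g r) ⟨(reg_meets _).1 d hd _ hr, mem_range_self r⟩
  exact ⟨a, ha, s, hs.trans hr, hs'⟩

theorem exists_model : ∃ (Y P : Type) (_ : Preorder P), #Y = ℵ₁ ∧ Nonempty P ∧
    ∀ p : P, p ∈ Model P Y := by
  let A : Type := (ℵ₁ : Cardinal.{0}).out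
  have hA : #A = ℵ₁ := mk_out _
  let κ : Cardinal.{0} := Order.succ ℵ₁
  have hκ : κ.IsRegular := isRegular_succ aleph0_lt_aleph_one.le
  let K : Type := κ.ord.ToType
  have hK : #K = κ := mk_ord_toType _
  let Θ : Type := Set A
  let c : Cardinal.{0} := 2 ^ (ℵ₁ : Cardinal.{0})
  have hΘ : #Θ = c := by
    show #(Set A) = c
    rw [mk_set, hA]
  have hκc : κ ≤ c := Order.succ_le_of_lt (cantor _)
  have h1c : (ℵ₁ : Cardinal.{0}) ≤ c := (Order.le_succ _).trans hκc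
  have h0c : ℵ₀ ≤ c := aleph0_lt_aleph_one.le.trans h1c
  have hCrd : #(Crd A K Θ) ≤ c := by
    have h1 : #(Crd A K Θ) ≤ #(A ⊕ (Bool × K × Θ)) := by
      refine mk_le_of_injective (f := fun x => match x with
        | .a ξ => Sum.inl ξ
        | .x b γ θ => Sum.inr (b, γ, θ)) fun x y h => ?_
      cases x <;> cases y <;> simp at h ⊢ <;> exact h
    refine h1.trans ?_
    rw [mk_sum, mk_prod, mk_prod]
    simp only [Cardinal.lift_id, mk_bool]
    rw [hA, hK, hΘ]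
    exact add_le_of_le h0c h1c (mul_le_of_le h0c ((natCast_le_aleph0 (n := 2)).trans h0c)
      (mul_le_of_le h0c hκc le_rfl))
  let R : Type := Finset ((Crd A K Θ × ℕ) × ℕ)
  have hOpt : #(Option R) ≤ c := by
    have h1 : #((Crd A K Θ × ℕ) × ℕ) ≤ c := by
      rw [mk_prod, mk_prod]
      simp only [Cardinal.lift_id, mk_nat]
      exact mul_le_of_le h0c (mul_le_of_le h0c hCrd h0c) h0c
    have h2 : #R ≤ c := by
      have hne : Nonempty A := by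
        rw [← mk_ne_zero_iff, hA]
        exact (aleph_pos 1).ne'
      have : Infinite ((Crd A K Θ × ℕ) × ℕ) := by
        obtain ⟨i⟩ := hne
        exact Infinite.of_injective (fun n : ℕ => ((Crd.a i, 0), n)) fun a b h => by
          simpa using h
      rw [mk_finset_of_infinite]
      exact h1
    rw [mk_option]
    exact add_le_of_le h0c h2 (one_le_aleph0.trans h0c)
  have hcode : #(A → ℕ → ℕ → ℕ → Option R) ≤ #Θ := by
    have h1 : (ℵ₁ : Cardinal.{0}) * ℵ₁ = ℵ₁ := mul_eq_self aleph0_lt_aleph_one.le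
    have h2 : (ℵ₀ : Cardinal.{0}) * ℵ₁ = ℵ₁ :=
      mul_eq_right aleph0_lt_aleph_one.le aleph0_lt_aleph_one.le aleph0_ne_zero
    rw [hΘ]
    simp only [mk_arrow, Cardinal.lift_id, mk_nat]
    rw [hA]
    calc ((((#(Option R)) ^ ℵ₀) ^ ℵ₀) ^ ℵ₀) ^ (ℵ₁ : Cardinal.{0})
        ≤ (((c ^ ℵ₀) ^ ℵ₀) ^ ℵ₀) ^ (ℵ₁ : Cardinal.{0}) :=
          power_le_power_right (power_le_power_right (power_le_power_right
            (power_le_power_right hOpt)))
      _ = c := by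
        show ((((2 ^ (ℵ₁ : Cardinal.{0})) ^ ℵ₀) ^ ℵ₀) ^ ℵ₀) ^ (ℵ₁ : Cardinal.{0}) = _
        rw [← power_mul, ← power_mul, ← power_mul, ← power_mul, h2, h2, h2, h1]
  obtain ⟨emb⟩ : Nonempty ((A → ℕ → ℕ → ℕ → Option R) ↪ Θ) := hcode
  let G : Θ → A → ℕ → ℕ → ℕ → Option R := Function.invFun emb
  have hG : Function.Surjective G := Function.invFun_surjective emb.injective
  let S : Θ → A → ℕ → RName (Fn (Crd A K Θ)) := fun θ j n k =>
    {q | ∃ i, ∃ r, G θ j n k i = some r ∧ q = rp r}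
  refine ⟨A, Fn (Crd A K Θ), inferInstance, hA, ⟨⟨∅, fun _ => 0⟩⟩, fun p => ?_⟩
  refine model S (by rw [hA]; exact aleph0_lt_aleph_one)
    (by rw [hK]; exact aleph0_lt_aleph_one.trans (Order.lt_succ _)) (fun T hT => ?_)
    (by rw [hA, hK]; exact Order.lt_succ _) (fun D => ?_) p
  · by_contra hcon
    push Not at hcon
    have h1 : IsCofinal T := fun α => by
      obtain ⟨β, hβ, hβ'⟩ := hcon α
      exact ⟨β, hβ, hβ'⟩
    have h2 := Order.cof_le h1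
    rw [Ordinal.cof_toType, hκ.cof_ord, ← hK] at h2
    exact absurd h2 (not_le.2 hT)
  · choose F hF using fun (j : A) (n k : ℕ) => exists_code (P := Fn (Crd A K Θ)) ccc_fn rp
      exists_rp (D j n k)
    obtain ⟨θ, hθ⟩ := hG F
    refine ⟨θ, fun j n k => ?_⟩
    rw [← hF j n k]
    show meets {q | ∃ i, ∃ r, G θ j n k i = some r ∧ q = rp r} = _
    rw [hθ]

end Pool.Agent.R592.Pk
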