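import Pool.Agent.R592.Sl.Sent

/-!
# Ideals generated by a family of names, supports in the Cohen forcing
-/

set_option autoImplicit false
set_option linter.unusedSectionVars false

namespace Pool.Agent.R592.Pk

open Cardinal Set
open Pool.Agent.TH773.PSet Pool.Agent.R593.Rnd Pool.Agent.R592.Ent Pool.Agent.R592.Sl

universe u v w

/-! ### The sentences -/

section Sentences

variable {P : Type u} [Preorder P]

/-- the set `{n : x n ∈ a}` -/
def Pre (x : ℕ → ℕ → Set P) (a : RName P) : RName P :=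
  fun n => fex fun k : ℕ => fand (meets (x n k)) (meets (a k))

/-- the intersection of the families `F` and `G` -/
def Inter (F G : FName P) : FName P := fun A => fand (Mem A F) (Mem A G)

/-- `𝔭_K(I, J)` is at most the cardinality of `Y`: there is a family `B` of members of `I`, indexed
by `Y`, such that for each function `x : ω → ω` there is `y` such that `{n : x n ∈ B y}` is not
in `J`. -/
def PkLe (I J : FName P) (Y : Type v) : Set P :=
  fex fun B : Y → RName P => fand (fall fun y => Mem (B y) I)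
    (fall fun x : ℕ → ℕ → Set P => fimp (IsFun x) (fex fun y => fnot (Mem (Pre x (B y)) J)))

/-- `𝔰𝔩ₑ(I, J)` is at most the cardinality of `Y`: there is a family `D` of functions from `ω` to
`I`, indexed by `Y`, such that for each function `x : ω → ω` there is `y` such that
`{n : x n ∈ D y n}` is not in `J`. -/
def SlLe (I J : FName P) (Y : Type v) : Set P :=
  fex fun D : Y → ℕ → RName P => fand (fall fun y => fall fun n => Mem (D y n) I)
    (fall fun x : ℕ → ℕ → Set P => fimp (IsFun x) (fex fun y => fnot (Mem (Cap x (D y)) J)))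

/-- `𝔰𝔩ₑ(⋆, J)` is at most the cardinality of `Y`. -/
def SlStarLe (J : FName P) (Y : Type v) : Set P :=
  fex fun I : FName P => fand (IsIdeal I) (SlLe I J Y)

variable (P) in
/-- There are ideals `I`, `J₀`, `J₁` on `ω` such that `𝔭_K(I, J₀ ∩ J₁)` is at most the cardinality
of `Y`, and `𝔰𝔩ₑ(⋆, J₀)` and `𝔰𝔩ₑ(⋆, J₁)` are greater than the cardinality of `Y`. -/
def Model (Y : Type v) : Set P :=
  fex fun I : FName P => fex fun J₀ : FName P => fex fun J₁ : FName P =>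
    fand (IsIdeal I) (fand (IsIdeal J₀) (fand (IsIdeal J₁)
      (fand (PkLe I (Inter J₀ J₁) Y) (fand (fnot (SlStarLe J₀ Y)) (fnot (SlStarLe J₁ Y))))))

theorem mem_inter_left {A : RName P} {F G : FName P} {p : P} (h : p ∈ Mem A (Inter F G)) :
    p ∈ Mem A F := by
  refine (reg_mem A F).2 p fun q hq => ?_
  obtain ⟨r, hr, B, hAB, hB⟩ := mem_fex.1 h q hq
  obtain ⟨r', hr', s, hs, hrs⟩ := hB r le_rfl
  refine ⟨r', hr'.trans hr, mem_fex.2 fun q' hq' => ?_⟩
  obtain ⟨r'', hr'', B', h1, h2⟩ := mem_fex.1 hs.1 q' (hq'.trans hrs)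
  exact ⟨r'', hr'', B', same_of fun t ht n => (meets_of_same hAB
    (ht.trans (hr''.trans (hq'.trans hr'))) n).trans (meets_of_same h1 ht n), h2⟩

theorem mem_inter_right {A : RName P} {F G : FName P} {p : P} (h : p ∈ Mem A (Inter F G)) :
    p ∈ Mem A G := by
  refine (reg_mem A G).2 p fun q hq => ?_
  obtain ⟨r, hr, B, hAB, hB⟩ := mem_fex.1 h q hq
  obtain ⟨r', hr', s, hs, hrs⟩ := hB r le_rfl
  refine ⟨r', hr'.trans hr, mem_fex.2 fun q' hq' => ?_⟩
  obtain ⟨r'', hr'', B', h1, h2⟩ := mem_fex.1 hs.2 q' (hq'.trans hrs)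
  exact ⟨r'', hr'', B', same_of fun t ht n => (meets_of_same hAB
    (ht.trans (hr''.trans (hq'.trans hr'))) n).trans (meets_of_same h1 ht n), h2⟩

/-- A finite union of members of an ideal is not `ω`. -/
theorem exists_notMem_union {I : FName P} {p : P} (hI : p ∈ IsIdeal I) {ι : Type v}
    (D : ι → RName P) (L : Finset ι) (hD : ∀ j ∈ L, p ∈ Mem (D j) I) (q : P) (hq : q ≤ p) :
    ∃ r ≤ q, ∃ k, ∀ j ∈ L, r ∈ fnot (meets (D j k)) := by
  classical
  let U : Finset ι → RName P := fun L k => {r | ∃ j ∈ L, r ∈ meets (D j k)}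
  have hdown : ∀ L n, Down (U L n) := by
    rintro L n r ⟨j, hj, hj'⟩ s hs
    exact ⟨j, hj, (reg_meets _).1 r hj' s hs⟩
  have hU : ∀ L : Finset ι, (∀ j ∈ L, p ∈ Mem (D j) I) → p ∈ Mem (U L) I := by
    intro L
    induction L using Finset.induction_on with
    | empty =>
      intro _
      refine (mem_fimp_reg (reg_fex _).1 (reg_mem _ _)).1 (hI.1 (U ∅)) p le_rfl ?_
      refine mem_fex_of 0 fun r _ n _ s hs hs' => ?_
      obtain ⟨t, -, u, ⟨j, hj, -⟩, -⟩ := hs' s le_rfl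
      simp at hj
    | insert j L _ ih =>
      intro h
      have h1 := ih fun j' hj' => h j' (Finset.mem_insert_of_mem hj')
      have h2 := h j (Finset.mem_insert_self _ _)
      refine (reg_mem _ _).2 p fun q hq => ?_
      refine mem_fimp.1 (hI.2.2.1 (D j) (U L) (U (insert j L))) q hq
        ⟨(reg_mem _ _).1 p h2 q hq, (reg_mem _ _).1 p h1 q hq, fun n => ?_⟩
      refine mem_fimp.2 fun r _ hr => ⟨r, le_rfl, mem_disj.2 fun r' hr' => ?_⟩
      obtain ⟨s, hs, t, ⟨j', hj', ht⟩, hst⟩ := hr r' hr'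
      refine ⟨s, hs, ?_⟩
      rcases Finset.mem_insert.1 hj' with rfl | hj'
      · exact Or.inl ((reg_meets _).1 t ht s hst)
      · exact Or.inr (subset_meets (hdown L n) ⟨j', hj', (reg_meets _).1 t ht s hst⟩)
  by_contra hcon
  push Not at hcon
  have h1 : q ∈ Sub (fun _ => Set.univ) (U L) := by
    intro n
    refine mem_fimp.2 fun r hr _ => ⟨r, le_rfl, fun r' hr' => ?_⟩
    obtain ⟨j, hj, hj'⟩ := hcon r' (hr'.trans hr) n
    rw [mem_fnot] at hj'
    push Not at hj'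
    obtain ⟨s, hs, hs'⟩ := hj'
    exact ⟨s, hs, s, ⟨j, hj, hs'⟩, le_rfl⟩
  obtain ⟨r, hr, hr'⟩ := mem_fimp.1 (hI.2.1 (fun _ => Set.univ) (U L)) q hq
    ⟨h1, (reg_mem _ _).1 p (hU L hD) q hq⟩
  exact hI.2.2.2 r (hr.trans hq) hr'

end Sentences

/-! ### The ideal generated by a family of names -/

section Idl

variable {P : Type u} [Preorder P] {ι : Type v} (G : ι → RName P)

/-- Every element of `A` which is at least `m` belongs to some `G i` with `i ∈ F`. -/
def Qu (F : Finset ι) (m : ℕ) (A : RName P) : Set P :=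
  fall fun n : ℕ => fall fun _ : m ≤ n =>
    fnot (fand (meets (A n)) (fall fun i : ι => fall fun _ : i ∈ F => fnot (meets (G i n))))

/-- the ideal generated by the sets `G i` and the finite sets -/
def Idl : FName P := fun A => fex fun F : Finset ι => fex fun m : ℕ => Qu G F m A

variable {G}

theorem down_Qu (F : Finset ι) (m : ℕ) (A : RName P) : Down (Qu G F m A) :=
  down_fall fun _ => down_fall fun _ => down_fnot _

theorem mem_Idl_iff {A : RName P} {p : P} :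
    p ∈ Idl G A ↔ ∀ q ≤ p, ∃ r ≤ q, ∃ F m, r ∈ Qu G F m A := by
  constructor
  · intro h q hq
    obtain ⟨r, hr, F, hF⟩ := mem_fex.1 h q hq
    obtain ⟨r', hr', m, hm⟩ := mem_fex.1 hF r le_rfl
    exact ⟨r', hr'.trans hr, F, m, hm⟩
  · intro h
    refine mem_fex.2 fun q hq => ?_
    obtain ⟨r, hr, F, m, h'⟩ := h q hq
    exact ⟨r, hr, F, mem_fex_of m fun r' hr' => down_Qu F m A r h' r' hr'⟩

theorem Qu_mono {A B : RName P} {p : P} (h : ∀ q ≤ p, ∀ n, q ∈ meets (A n) → q ∈ meets (B n))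
    {F F' : Finset ι} (hF : F ⊆ F') {m m' : ℕ} (hm : m ≤ m') (hp : p ∈ Qu G F m B) :
    p ∈ Qu G F' m' A :=
  fun n hn q hq hq' => hp n (hm.trans hn) q hq ⟨h q hq _ hq'.1, fun i hi => hq'.2 i (hF hi)⟩

theorem Idl_mono {A B : RName P} {p : P}
    (h : ∀ q ≤ p, ∀ n, q ∈ meets (A n) → q ∈ meets (B n)) (hp : p ∈ Idl G B) : p ∈ Idl G A := by
  rw [mem_Idl_iff] at hp ⊢
  intro q hq
  obtain ⟨r, hr, F, m, hr'⟩ := hp q hq
  exact ⟨r, hr, F, m, Qu_mono (fun q' hq' => h q' (hq'.trans (hr.trans hq))) (fun _ h => h)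
    le_rfl hr'⟩

theorem mem_iff {A : RName P} {p : P} : p ∈ Mem A (Idl G) ↔ p ∈ Idl G A := by
  constructor
  · intro h
    refine (reg_fex _).2 p fun q hq => ?_
    obtain ⟨r, hr, B, hAB, hB⟩ := mem_fex.1 h q hq
    obtain ⟨r', hr', s, hs, hrs⟩ := hB r le_rfl
    refine ⟨r', hr'.trans hr, Idl_mono (fun q' hq' n h' => ?_) ((reg_fex _).1 s hs r' hrs)⟩
    exact (meets_of_same hAB (hq'.trans hr') n).1 h'
  · intro h
    refine mem_fex_of A fun q hq => ⟨same_of fun _ _ _ => Iff.rfl, ?_⟩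
    exact subset_meets (reg_fex _).1 ((reg_fex _).1 p h q hq)

theorem mem_gen (i : ι) (p : P) : p ∈ Mem (G i) (Idl G) := by
  rw [mem_iff, mem_Idl_iff]
  exact fun q _ => ⟨q, le_rfl, {i}, 0, fun n _ r _ hr' => hr'.2 i (Finset.mem_singleton_self i)
    r le_rfl hr'.1⟩

theorem isIdeal_Idl (h : ∀ (F : Finset ι) (m : ℕ) (p : P), ∃ n, m ≤ n ∧ ∃ q ≤ p,
    ∀ i ∈ F, q ∈ fnot (meets (G i n))) (p : P) : p ∈ IsIdeal (Idl G) := by
  classical
  refine ⟨fun A => ?_, fun A B => ?_, fun A B C => ?_, fun q _ hq => ?_⟩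
  · refine mem_fimp.2 fun q _ hq => ⟨q, le_rfl, ?_⟩
    rw [mem_iff, mem_Idl_iff]
    intro q' hq'
    obtain ⟨r, hr, N, hN⟩ := mem_fex.1 hq q' hq'
    exact ⟨r, hr, ∅, N, fun n hn r' hr' h => hN n hn r' hr' h.1⟩
  · refine mem_fimp.2 fun q _ hq => ⟨q, le_rfl, ?_⟩
    obtain ⟨h1, h2⟩ := hq
    rw [mem_iff] at h2 ⊢
    exact Idl_mono (fun q' hq' n => (mem_fimp_reg (reg_meets _).1 (reg_meets _)).1 (h1 n) q' hq') h2
  · refine mem_fimp.2 fun q _ hq => ⟨q, le_rfl, ?_⟩
    obtain ⟨h1, h2, h3⟩ := hq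
    rw [mem_iff, mem_Idl_iff] at h1 h2 ⊢
    intro q' hq'
    obtain ⟨r, hr, F, m, hr'⟩ := h1 q' hq'
    obtain ⟨r', hrr, F', m', hr''⟩ := h2 r (hr.trans hq')
    refine ⟨r', hrr.trans hr, F ∪ F', max m m', fun n hn q'' hq'' h => ?_⟩
    obtain ⟨h5, h6⟩ := h
    obtain ⟨t, ht, ht'⟩ := mem_fimp.1 (h3 n) q''
      (hq''.trans (hrr.trans (hr.trans hq'))) h5
    obtain ⟨t', htt, ht'' | ht''⟩ := mem_disj.1 ht' t le_rfl
    · refine hr' n ((le_max_left _ _).trans hn) t' (htt.trans (ht.trans (hq''.trans hrr)))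
        ⟨ht'', fun i hi => ?_⟩
      exact down_fnot _ _ (h6 i (Finset.mem_union_left _ hi)) _ (htt.trans ht)
    · refine hr'' n ((le_max_right _ _).trans hn) t' (htt.trans (ht.trans hq''))
        ⟨ht'', fun i hi => ?_⟩
      exact down_fnot _ _ (h6 i (Finset.mem_union_right _ hi)) _ (htt.trans ht)
  · rw [mem_iff, mem_Idl_iff] at hq
    obtain ⟨r, hr, F, m, hr'⟩ := hq q le_rfl
    obtain ⟨n, hn, s, hs, h1⟩ := h F m r
    exact hr' n hn s hs ⟨subset_meets (fun _ _ _ _ => trivial) trivial, h1⟩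

end Idl

/-! ### Supports -/

section Sp

variable {C : Type}

/-- the part of the condition `p` which concerns the coordinates in `S` -/
noncomputable def res (S : Set C) (p : Fn C) : Fn C := by
  classical
  exact ⟨p.dom.filter fun t => t.1 ∈ S, p.val⟩

theorem mem_res {S : Set C} {p : Fn C} {t : C × ℕ} : t ∈ (res S p).dom ↔ t ∈ p.dom ∧ t.1 ∈ S := by
  classical
  exact Finset.mem_filter

theorem le_res (S : Set C) (p : Fn C) : p ≤ res S p :=
  ⟨fun _ ht => (mem_res.1 ht).1, fun _ _ => rfl⟩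

theorem res_le_res {S T : Set C} (h : S ⊆ T) (p : Fn C) : res T p ≤ res S p :=
  ⟨fun _ ht => mem_res.2 ⟨(mem_res.1 ht).1, h (mem_res.1 ht).2⟩, fun _ _ => rfl⟩

/-- The truth value of `φ` depends only on the coordinates in `S`. -/
def Sp (S : Set C) (φ : Set (Fn C)) : Prop := ∀ r ∈ φ, res S r ∈ φ

theorem Sp.mono {S T : Set C} (h : S ⊆ T) {φ : Set (Fn C)} (hd : Down φ) (hφ : Sp S φ) :
    Sp T φ :=
  fun r hr => hd _ (hφ r hr) _ (res_le_res h r)

theorem exists_sp {φ : Set (Fn C)} (hφ : Reg φ) : ∃ S : Set C, S.Countable ∧ Sp S φ := by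
  obtain ⟨A, hA, hAD, hA'⟩ := exists_countable (P := Fn C) ccc_fn φ
  let S : Set C := ⋃ r ∈ A, ⋃ t ∈ r.dom, {t.1}
  have hS : ∀ a ∈ A, ∀ t ∈ a.dom, t.1 ∈ S := fun a ha t ht =>
    mem_iUnion₂.2 ⟨a, ha, mem_iUnion₂.2 ⟨t, ht, rfl⟩⟩
  refine ⟨S, hA.biUnion fun r _ => (Finset.countable_toSet r.dom).biUnion fun t _ =>
    countable_singleton _, fun r hr => hφ.2 _ fun t ht => ?_⟩
  have h1 : Agree r (res S t) := by
    intro u hu hu'
    have h2 : u ∈ (res S r).dom := mem_res.2 ⟨hu, (mem_res.1 hu').2⟩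
    exact (ht.2 u h2).symm
  obtain ⟨c, hc, hc', -⟩ := exists_glue h1
  obtain ⟨a, ha, s, hs, hs'⟩ := hA' c (hφ.1 r hr c hc)
  have h3 : Agree t a := by
    intro u hu hu'
    have h4 : u ∈ (res S t).dom := mem_res.2 ⟨hu, hS a ha u hu'⟩
    have h5 : s.val u = t.val u := (hs.trans hc').2 u h4
    rw [← h5]
    exact hs'.2 u hu'
  obtain ⟨v, hv, hv', -⟩ := exists_glue h3
  exact ⟨v, hv, hφ.1 a (hAD ha) v hv'⟩

end Sp

end Pool.Agent.R592.Pk
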