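import Pool.Agent.R592.Pk.Idl

/-!
# Two ideals with large slalom numbers whose intersection has a small one
-/

set_option autoImplicit false
set_option linter.unusedSectionVars false

namespace Pool.Agent.R592.Pk

open Cardinal Set
open Pool.Agent.TH773.PSet Pool.Agent.R593.Rnd Pool.Agent.R592.Ent Pool.Agent.R592.Sl

/-- The names of the generic functions: the parity of the values of `a ξ` gives a subset of `ω`,
and `x b γ θ` is a function which is added at the stage `γ`. -/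
inductive Crd (A K Θ : Type) : Type
  | a (ξ : A) : Crd A K Θ
  | x (b : Bool) (γ : K) (θ : Θ) : Crd A K Θ

variable {A K Θ : Type} [LinearOrder K]

/-- everything added before the stage `γ` -/
def St (γ : K) : Set (Crd A K Θ) := {c | ∀ b γ' θ, γ ≤ γ' → c ≠ .x b γ' θ}

/-- the generic subset of `ω` added for `ξ` -/
def aa (ξ : A) : RName (Fn (Crd A K Θ)) :=
  fun k => {p | (Crd.a ξ, k) ∈ p.dom ∧ p.val (.a ξ, k) % 2 = 0}

theorem down_aa (ξ : A) (k : ℕ) : Down (aa (K := K) (Θ := Θ) ξ k) :=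
  fun _ hp _ hq => ⟨hq.1 hp.1, by rw [hq.2 _ hp.1]; exact hp.2⟩

/-- The pairs `(γ, θ)` such that the `θ`-th family of names of slaloms depends only on what is
added before the stage `γ`, and no finite union of values of these slaloms is `ω`. -/
def Act (S : Θ → A → ℕ → RName (Fn (Crd A K Θ))) : Type :=
  {c : K × Θ // (∀ j n k, Sp (St c.1) (fnot (meets (S c.2 j n k)))) ∧
    ∀ (n : ℕ) (L : Finset A) (q : Fn (Crd A K Θ)),
      ∃ r ≤ q, ∃ k, ∀ j ∈ L, r ∈ fnot (meets (S c.2 j n k))}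

variable (S : Θ → A → ℕ → RName (Fn (Crd A K Θ)))

/-- the set of those `n` for which the value of the generic function at `n` is in the value of the
slalom at `n` -/
def GG (b : Bool) (i : Act S × A) : RName (Fn (Crd A K Θ)) :=
  Cap (gr (.x b i.1.1.1 i.1.1.2)) (S i.1.1.2 i.2)

/-! ### The involutions -/

/-- an involution which changes the parity -/
def fl (v : ℕ) : ℕ := if v % 2 = 0 then v + 1 else v - 1

theorem fl_fl (v : ℕ) : fl (fl v) = v := by
  unfold fl
  split_ifs <;> omega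

theorem fl_mod (v : ℕ) (h : v % 2 ≠ 0) : fl v % 2 = 0 := by
  unfold fl
  rw [if_neg h]
  omega

/-- Change the parity of the values of `a ξ` from `N` on. -/
noncomputable def sg (b : Bool) (ξ : A) (N : ℕ) (p : Fn (Crd A K Θ)) : Fn (Crd A K Θ) := by
  classical
  exact ⟨p.dom, fun t => if b = true ∧ t.1 = .a ξ ∧ N ≤ t.2 then fl (p.val t) else p.val t⟩

theorem sg_dom (b : Bool) (ξ : A) (N : ℕ) (p : Fn (Crd A K Θ)) : (sg b ξ N p).dom = p.dom := rfl

theorem sg_sg (b : Bool) (ξ : A) (N : ℕ) (p : Fn (Crd A K Θ)) : sg b ξ N (sg b ξ N p) = p := by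
  classical
  obtain ⟨d, v⟩ := p
  simp only [sg, Fn.mk.injEq, true_and]
  funext t
  split_ifs with h
  · exact fl_fl _
  · rfl

theorem sg_le (b : Bool) (ξ : A) (N : ℕ) {p q : Fn (Crd A K Θ)} (h : q ≤ p) :
    sg b ξ N q ≤ sg b ξ N p := by
  classical
  refine ⟨h.1, fun t ht => ?_⟩
  show (if b = true ∧ t.1 = .a ξ ∧ N ≤ t.2 then fl (q.val t) else q.val t) =
    if b = true ∧ t.1 = .a ξ ∧ N ≤ t.2 then fl (p.val t) else p.val t
  rw [h.2 t ht]

theorem sg_false (ξ : A) (N : ℕ) (p : Fn (Crd A K Θ)) : sg false ξ N p = p := by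
  classical
  obtain ⟨d, v⟩ := p
  simp [sg]

theorem sg_val_x (b : Bool) (ξ : A) (N : ℕ) (p : Fn (Crd A K Θ)) (b' : Bool) (γ : K) (θ : Θ)
    (n : ℕ) : (sg b ξ N p).val (.x b' γ θ, n) = p.val (.x b' γ θ, n) := by
  classical
  exact if_neg (by simp)

/-- If no value of `a ξ` from `N` on is decided by `p` then `p` is fixed. -/
theorem sg_le_self (b : Bool) (ξ : A) (N : ℕ) {p : Fn (Crd A K Θ)}
    (h : ∀ k, (Crd.a ξ, k) ∈ p.dom → k < N) : sg b ξ N p ≤ p := by
  classical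
  refine ⟨fun _ ht => ht, fun t ht => if_neg ?_⟩
  rintro ⟨-, h1, h2⟩
  obtain ⟨c, k⟩ := t
  obtain rfl : c = .a ξ := h1
  exact absurd (h k ht) (not_lt.2 h2)

theorem sg_le_res (b : Bool) (ξ : A) (N : ℕ) {U : Set (Crd A K Θ)} (hU : Crd.a ξ ∉ U)
    (p : Fn (Crd A K Θ)) : sg b ξ N p ≤ res U p := by
  classical
  refine ⟨fun _ ht => (mem_res.1 ht).1, fun t ht => if_neg ?_⟩
  rintro ⟨-, h1, -⟩
  exact hU (h1 ▸ (mem_res.1 ht).2)

/-! ### The main construction -/

theorem step (ξ : A) (N n : ℕ) (L : Finset A) (T : Finset (Bool × Act S)) :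
    ∀ p : Fn (Crd A K Θ), (∀ c ∈ T, (Crd.x c.1 c.2.1.1 c.2.1.2, n) ∉ p.dom) →
    ∃ q ≤ p, (∀ c' : Bool × Act S, c' ∉ T → (∀ c ∈ T, c.2.1.1 ≤ c'.2.1.1) →
        (Crd.x c'.1 c'.2.1.1 c'.2.1.2, n) ∈ q.dom → (Crd.x c'.1 c'.2.1.1 c'.2.1.2, n) ∈ p.dom) ∧
      ∀ c ∈ T, ∀ j ∈ L, sg c.1 ξ N q ∈ fnot (meets (GG S c.1 (c.2, j) n)) := by
  classical
  induction T using Finset.induction_on_max_value (fun c : Bool × Act S => c.2.1.1) with
  | empty => exact fun p _ => ⟨p, le_rfl, fun c' _ _ h => h, fun c hc => by simp at hc⟩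
  | insert c T hcT hT ih =>
    intro p hp
    obtain ⟨q1, hq1, h1, h2⟩ := ih p fun c' hc' => hp c' (Finset.mem_insert_of_mem hc')
    have hc1 : (Crd.x c.1 c.2.1.1 c.2.1.2, n) ∉ q1.dom :=
      fun h => hp c (Finset.mem_insert_self _ _) (h1 c hcT hT h)
    obtain ⟨r, hr, k, hk⟩ := c.2.2.2 n L (sg c.1 ξ N q1)
    obtain ⟨q3, hq3, hq3', hq3''⟩ := exists_glue (agree_of_le hr (le_res (St c.2.1.1) r))
    have h4 : sg c.1 ξ N q3 ≤ q1 := by
      have := sg_le c.1 ξ N hq3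
      rwa [sg_sg] at this
    have h4' : (Crd.x c.1 c.2.1.1 c.2.1.2, n) ∉ (sg c.1 ξ N q3).dom := by
      intro h
      rcases hq3'' _ h with h | h
      · exact hc1 h
      · exact (mem_res.1 h).2 _ _ _ le_rfl rfl
    obtain ⟨q5, h5, h6, h7, h8⟩ := exists_ext _ _ h4' k
    refine ⟨q5, h5.trans (h4.trans hq1), fun c' hc' hTc' h => ?_, fun c' hc' j hj => ?_⟩
    · rcases h8 _ h with h | h
      · rcases hq3'' _ h with h | h
        · exact h1 c' (fun h' => hc' (Finset.mem_insert_of_mem h'))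
            (fun c'' hc'' => hTc' c'' (Finset.mem_insert_of_mem hc'')) h
        · exact absurd rfl ((mem_res.1 h).2 _ _ _ (hTc' c (Finset.mem_insert_self _ _)))
      · simp only [Prod.mk.injEq, Crd.x.injEq, and_true] at h
        exact absurd (Finset.mem_insert.2 (Or.inl (Prod.ext h.1
          (Subtype.ext (Prod.ext h.2.1 h.2.2))))) hc'
    · rcases Finset.mem_insert.1 hc' with rfl | hc'
      · intro s hs hs'
        obtain ⟨t, ht, u, hu, htu⟩ := hs' s le_rfl
        obtain ⟨v, hv, k', hv1, hv2⟩ := mem_fex.1 ((reg_fex _).1 u hu t htu) t le_rfl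
        rw [meets_gr] at hv1
        have h9 : v ≤ sg c'.1 ξ N q5 := hv.trans (ht.trans hs)
        have h10 : k' = k := by
          rw [← hv1.2, h9.2 _ h6, sg_val_x]
          exact h7
        subst h10
        have h11 : v ≤ q3 := by
          have := sg_le c'.1 ξ N h5
          rw [sg_sg] at this
          exact h9.trans this
        exact c'.2.2.1 j n k' r (hk j hj) v (h11.trans hq3') hv2
      · exact down_fnot _ _ (h2 c' hc' j hj) _ (sg_le _ ξ N (h5.trans h4))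

theorem key (ξ : A) (N m : ℕ) (L : Finset A) (T : Finset (Bool × Act S)) (p : Fn (Crd A K Θ)) :
    ∃ n, m ≤ n ∧ ∃ q ≤ p, ∀ c ∈ T, ∀ j ∈ L,
      sg c.1 ξ N q ∈ fnot (meets (GG S c.1 (c.2, j) n)) := by
  obtain ⟨M, hM⟩ : ∃ M, ∀ t ∈ p.dom, t.2 < M := by
    refine ⟨p.dom.sup (fun t => t.2) + 1, fun t ht => Nat.lt_succ_of_le ?_⟩
    exact Finset.le_sup (f := fun t : Crd A K Θ × ℕ => t.2) ht
  obtain ⟨q, hq, -, h⟩ := step S ξ N (max m M) L T p fun c _ h => by
    have h1 := hM _ h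
    have h2 := le_max_right m M
    omega
  exact ⟨max m M, le_max_left _ _, q, hq, h⟩

theorem isIdeal_JJ [Nonempty A] (b : Bool) (p : Fn (Crd A K Θ)) : p ∈ IsIdeal (Idl (GG S b)) := by
  classical
  refine isIdeal_Idl (fun F m p => ?_) p
  obtain ⟨ξ⟩ : Nonempty A := inferInstance
  obtain ⟨n, hn, q, hq, h⟩ := key S ξ 0 m (F.image Prod.snd) (F.image fun i => (b, i.1))
    (sg b ξ 0 p)
  refine ⟨n, hn, sg b ξ 0 q, ?_, fun i hi => ?_⟩
  · have := sg_le b ξ 0 hq
    rwa [sg_sg] at this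
  · exact h (b, i.1) (Finset.mem_image_of_mem (fun i : Act S × A => (b, i.1)) hi) i.2
      (Finset.mem_image_of_mem Prod.snd hi)

theorem isIdeal_II (p : Fn (Crd A K Θ)) : p ∈ IsIdeal (Idl (aa (A := A) (K := K) (Θ := Θ))) := by
  classical
  refine isIdeal_Idl (fun F m p => ?_) p
  obtain ⟨M, hM⟩ : ∃ M, ∀ t ∈ p.dom, t.2 < M := by
    refine ⟨p.dom.sup (fun t => t.2) + 1, fun t ht => Nat.lt_succ_of_le ?_⟩
    exact Finset.le_sup (f := fun t : Crd A K Θ × ℕ => t.2) ht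
  let n := max m M
  have hfresh : ∀ c, (c, n) ∉ p.dom := fun c h => by
    have h1 := hM _ h
    have h2 : M ≤ n := le_max_right m M
    exact absurd h1 (not_lt.2 h2)
  refine ⟨n, le_max_left _ _, ⟨p.dom ∪ F.image (fun ξ => (Crd.a ξ, n)),
    fun t => if t ∈ p.dom then p.val t else 1⟩, ⟨Finset.subset_union_left, fun t ht => if_pos ht⟩,
    fun ξ hξ s hs hs' => ?_⟩
  obtain ⟨t, ht, u, hu, htu⟩ := hs' s le_rfl
  have h1 := (down_aa ξ n u hu t htu).2
  have h2 := (ht.trans hs).2 (.a ξ, n) (Finset.mem_union_right _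
    (Finset.mem_image_of_mem (fun ξ => (Crd.a ξ, n)) hξ))
  rw [h2] at h1
  have h3 : (if ((Crd.a ξ : Crd A K Θ), n) ∈ p.dom then p.val (.a ξ, n) else 1) = 1 :=
    if_neg (hfresh _)
  have h4 : (if ((Crd.a ξ : Crd A K Θ), n) ∈ p.dom then p.val (.a ξ, n) else 1) % 2 = 0 := h1
  rw [h3] at h4
  omega

/-! ### The number `𝔭_K` -/

/-- the sets `aa ξ` and the finite sets -/
def BB : A ⊕ ℕ → RName (Fn (Crd A K Θ))
  | .inl ξ => aa ξ
  | .inr N => fun k => {_p | k < N}

theorem pkLe (hA : ¬ Countable A) {Y : Type} (f : Y → A ⊕ ℕ) (hf : Function.Surjective f)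
    (p : Fn (Crd A K Θ)) :
    p ∈ PkLe (Idl aa) (Inter (Idl (GG S false)) (Idl (GG S true))) Y := by
  classical
  refine mem_fex_of (fun y => BB (f y)) fun q _ => ⟨fun y => ?_, fun x => mem_fimp.2 fun r _ hx =>
    ⟨r, le_rfl, ?_⟩⟩
  · show q ∈ Mem (BB (f y)) (Idl aa)
    cases hy : f y with
    | inl ξ => exact mem_gen (G := aa) ξ q
    | inr N =>
      rw [mem_iff, mem_Idl_iff]
      refine fun q' _ => ⟨q', le_rfl, ∅, N, fun n hn s _ hs => ?_⟩
      obtain ⟨t, -, u, hu, -⟩ := hs.1 s le_rfl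
      have hu' : n < N := hu
      exact absurd hu' (not_lt.2 hn)
  · by_contra hcon
    rw [mem_fex] at hcon
    push Not at hcon
    obtain ⟨q', hq', hcon⟩ := hcon
    have h0 : ∀ s ≤ q', ∀ i : A ⊕ ℕ, ∃ t ≤ s,
        t ∈ Mem (Pre x (BB i)) (Inter (Idl (GG S false)) (Idl (GG S true))) := by
      intro s hs i
      obtain ⟨y, rfl⟩ := hf i
      have := hcon s hs y
      rw [mem_fnot] at this
      push Not at this
      exact this
    -- the support of `x`
    choose U hU hUx using fun nk : ℕ × ℕ => exists_sp (reg_meets (tot x nk.1 nk.2))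
    obtain ⟨ξ, hξ⟩ : ∃ ξ : A, Crd.a ξ ∉ ⋃ nk, U nk := by
      by_contra h
      push Not at h
      have h1 : (⋃ nk, U nk).Countable := countable_iUnion hU
      have h2 : Countable (⋃ nk, U nk) := h1.to_subtype
      exact hA (Function.Injective.countable (f := fun ξ : A =>
        (⟨Crd.a ξ, h ξ⟩ : (⋃ nk, U nk : Set (Crd A K Θ)))) fun ξ ξ' h' => by
          have := congrArg Subtype.val h'
          simpa using this)
    have hSp : ∀ n k, Sp (⋃ nk, U nk) (meets (tot x n k)) := fun n k =>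
      (hUx (n, k)).mono (subset_iUnion U (n, k)) (reg_meets _).1
    -- the condition `p'` decides how `Pre x (aa ξ)` is covered
    obtain ⟨s1, hs1, hs1'⟩ := h0 q' le_rfl (.inl ξ)
    obtain ⟨r1, hr1, F0, m0, hF0⟩ := mem_Idl_iff.1 (mem_iff.1 (mem_inter_left hs1')) s1 le_rfl
    obtain ⟨p', hp', F1, m1, hF1⟩ := mem_Idl_iff.1 (mem_iff.1 (mem_inter_right hs1')) r1 hr1
    have hp'q : p' ≤ q' := hp'.trans (hr1.trans hs1)
    obtain ⟨N, hN⟩ : ∃ N, ∀ k, (Crd.a ξ, k) ∈ p'.dom → k < N := by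
      refine ⟨p'.dom.sup (fun t => t.2) + 1, fun k hk => Nat.lt_succ_of_le ?_⟩
      exact Finset.le_sup (f := fun t : Crd A K Θ × ℕ => t.2) hk
    -- the condition `p''` decides how `Pre x N` is covered
    obtain ⟨s2, hs2, hs2'⟩ := h0 p' hp'q (.inr N)
    obtain ⟨p'', hp'', F2, m2, hF2⟩ := mem_Idl_iff.1 (mem_iff.1 (mem_inter_left hs2')) s2 le_rfl
    have hp''p : p'' ≤ p' := hp''.trans hs2
    -- the main construction
    obtain ⟨n, hn, q1, hq1, hgood⟩ := key S ξ N (max m0 (max m1 m2))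
      ((F0 ∪ F1 ∪ F2).image Prod.snd) (((F0 ∪ F2).image fun i => (false, i.1)) ∪
        F1.image fun i => (true, i.1)) p''
    have hn0 : m0 ≤ n := (le_max_left _ _).trans hn
    have hn1 : m1 ≤ n := (le_max_left _ _).trans ((le_max_right _ _).trans hn)
    have hn2 : m2 ≤ n := (le_max_right _ _).trans ((le_max_right _ _).trans hn)
    have hg0 : ∀ i ∈ F0 ∪ F2, q1 ∈ fnot (meets (GG S false i n)) := by
      intro i hi
      have := hgood (false, i.1) (Finset.mem_union_left _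
        (Finset.mem_image_of_mem (fun i : Act S × A => (false, i.1)) hi)) i.2
        (Finset.mem_image_of_mem Prod.snd (by
          rcases Finset.mem_union.1 hi with h | h
          · exact Finset.mem_union_left _ (Finset.mem_union_left _ h)
          · exact Finset.mem_union_right _ h))
      rwa [sg_false] at this
    have hg1 : ∀ i ∈ F1, sg true ξ N q1 ∈ fnot (meets (GG S true i n)) := by
      intro i hi
      exact hgood (true, i.1) (Finset.mem_union_right _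
        (Finset.mem_image_of_mem (fun i : Act S × A => (true, i.1)) hi)) i.2
        (Finset.mem_image_of_mem Prod.snd (Finset.mem_union_left _ (Finset.mem_union_right _ hi)))
    obtain ⟨q2, hq2, k, hk⟩ := isFun_total (isFun_tot x q1) n
    have hk' : sg true ξ N q2 ∈ meets (tot x n k) :=
      (reg_meets _).1 _ (hSp n k q2 hk) _ (sg_le_res true ξ N hξ q2)
    have hsgp : sg true ξ N p'' ≤ p' := (sg_le true ξ N hp''p).trans (sg_le_self true ξ N hN)
    have hq2p : q2 ≤ p'' := hq2.trans hq1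
    -- `x n = k` in terms of `x`
    have htx : ∀ s ≤ r, s ∈ meets (tot x n k) → s ∈ meets (x n k) := fun s hs h =>
      (meets_tot ((reg_isFun x).1 r hx s hs) n k).1 h
    by_cases hkN : k < N
    · refine hF2 n hn2 q2 hq2p ⟨?_, fun i hi => ?_⟩
      · refine subset_meets (reg_fex _).1 (mem_fex_of k fun s hs => ⟨?_, ?_⟩)
        · exact htx s (hs.trans (hq2p.trans (hp''p.trans (hp'q.trans hq'))))
            ((reg_meets _).1 q2 hk s hs)
        · show s ∈ meets {_p | k < N}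
          exact subset_meets (fun _ h _ _ => h) hkN
      · exact down_fnot _ q1 (hg0 i (Finset.mem_union_right _ hi)) q2 hq2
    · by_cases h : ∃ t ≤ q2, t ∈ aa ξ k
      · obtain ⟨t, ht, hta⟩ := h
        have htp : t ≤ p' := ht.trans (hq2p.trans hp''p)
        refine hF0 n hn0 t (htp.trans hp') ⟨?_, fun i hi => ?_⟩
        · refine subset_meets (reg_fex _).1 (mem_fex_of k fun s hs => ⟨?_, ?_⟩)
          · exact htx s (hs.trans (htp.trans (hp'q.trans hq')))
              ((reg_meets _).1 q2 hk s (hs.trans ht))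
          · exact subset_meets (down_aa ξ k) (down_aa ξ k t hta s hs)
        · exact down_fnot _ q1 (hg0 i (Finset.mem_union_left _ hi)) t (ht.trans hq2)
      · push Not at h
        obtain ⟨t, ht, v, hv, hv'⟩ := exists_gr (Crd.a ξ) k q2
        have hta : t ∉ aa ξ k := h t ht
        have htodd : t.val (.a ξ, k) % 2 ≠ 0 := fun h' => hta ⟨hv, h'⟩
        have htp : sg true ξ N t ≤ p' := (sg_le true ξ N (ht.trans hq2p)).trans hsgp
        have hta' : sg true ξ N t ∈ aa ξ k := by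
          refine ⟨hv, ?_⟩
          have h1 : (sg true ξ N t).val (.a ξ, k) = fl (t.val (.a ξ, k)) :=
            if_pos ⟨rfl, rfl, not_lt.1 hkN⟩
          rw [h1]
          exact fl_mod _ htodd
        refine hF1 n hn1 (sg true ξ N t) htp ⟨?_, fun i hi => ?_⟩
        · refine subset_meets (reg_fex _).1 (mem_fex_of k fun s hs => ⟨?_, ?_⟩)
          · exact htx s (hs.trans (htp.trans (hp'q.trans hq')))
              ((reg_meets _).1 _ hk' s (hs.trans (sg_le true ξ N ht)))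
          · exact subset_meets (down_aa ξ k) (down_aa ξ k _ hta' s hs)
        · exact down_fnot _ _ (hg1 i hi) _ (sg_le true ξ N (ht.trans hq2))

/-! ### The number `𝔰𝔩ₑ(⋆, J)` -/

theorem exists_stage (hreg : ∀ T : Set K, #T < #K → ∃ γ, ∀ β ∈ T, β < γ)
    {U : Set (Crd A K Θ)} (hU : #U < #K) : ∃ γ : K, U ⊆ St γ := by
  obtain ⟨γ, hγ⟩ := hreg {β | ∃ b θ, Crd.x b β θ ∈ U} (by
    refine lt_of_le_of_lt (mk_le_of_surjective (α := {β | ∃ b θ, Crd.x b β θ ∈ U})
      (β := {β | ∃ b θ, Crd.x b β θ ∈ U}) (f := id) Function.surjective_id) ?_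
    have h1 : ∀ β : {β | ∃ b θ, Crd.x b β θ ∈ U}, ∃ c : U, ∃ b θ, c.1 = Crd.x b β.1 θ := by
      rintro ⟨β, b, θ, h⟩
      exact ⟨⟨_, h⟩, b, θ, rfl⟩
    choose f hf using h1
    refine lt_of_le_of_lt (mk_le_of_injective (f := f) fun β β' h => ?_) hU
    obtain ⟨b, θ, h2⟩ := hf β
    obtain ⟨b', θ', h3⟩ := hf β'
    rw [h, h3] at h2
    simp only [Crd.x.injEq] at h2
    exact Subtype.ext h2.2.1.symm)
  refine ⟨γ, fun c hc b β θ hβ hcx => ?_⟩
  subst hcx
  exact absurd (hγ β ⟨b, θ, hc⟩) (not_lt.2 hβ)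

theorem not_slStarLe (b : Bool) (hK : ℵ₀ < #K)
    (hreg : ∀ T : Set K, #T < #K → ∃ γ, ∀ β ∈ T, β < γ) (hAK : #A < #K)
    (hS : ∀ D : A → ℕ → RName (Fn (Crd A K Θ)), ∃ θ, ∀ j n k,
      meets (S θ j n k) = meets (D j n k))
    {Y : Type} (g : A → Y) (hg : Function.Surjective g) (p : Fn (Crd A K Θ)) :
    p ∈ fnot (SlStarLe (Idl (GG S b)) Y) := by
  intro p' _ hp'
  obtain ⟨r, -, I', hI, hr⟩ := mem_fex.1 hp' p' le_rfl
  obtain ⟨r2, hr2, D, hD1, hD2⟩ := mem_fex.1 hr r le_rfl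
  have hI2 : r2 ∈ IsIdeal I' := by
    refine ⟨fun A => (reg_fimp (reg_fex _).1).1 r (hI.1 A) r2 hr2, fun A B => ?_, fun A B C => ?_,
      down_fnot _ r hI.2.2.2 r2 hr2⟩
    · exact down_fnot _ r (hI.2.1 A B) r2 hr2
    · exact down_fnot _ r (hI.2.2.1 A B C) r2 hr2
  let D' : A → ℕ → RName (Fn (Crd A K Θ)) := fun j n k => {q | q ≤ r2 ∧ q ∈ meets (D (g j) n k)}
  have hD' : ∀ q ≤ r2, ∀ j n k, q ∈ meets (D' j n k) ↔ q ∈ meets (D (g j) n k) := by
    intro q hq j n k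
    constructor
    · intro h
      refine (reg_meets _).2 q fun s hs => ?_
      obtain ⟨t, ht, u, hu, htu⟩ := h s hs
      exact ⟨t, ht, (reg_meets _).1 u hu.2 t htu⟩
    · intro h
      have hd : Down (D' j n k) := fun s hs t ht => ⟨ht.trans hs.1, (reg_meets _).1 s hs.2 t ht⟩
      exact subset_meets hd ⟨hq, h⟩
  obtain ⟨θ, hθ⟩ := hS D'
  choose U hU hUS using fun i : A × ℕ × ℕ =>
    exists_sp (reg_fnot (reg_meets (S θ i.1 i.2.1 i.2.2)).1)
  obtain ⟨γ, hγ⟩ := exists_stage (U := ⋃ i, U i) hreg (by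
    refine lt_of_le_of_lt (mk_iUnion_le_sum_mk.trans
      (Cardinal.sum_le_sum _ (fun _ => ℵ₀) fun i => (hU i).le_aleph0)) ?_
    rw [Cardinal.sum_const', mk_prod, mk_prod]
    simp only [Cardinal.lift_id, mk_nat]
    exact mul_lt_of_lt hK.le (mul_lt_of_lt hK.le hAK (mul_lt_of_lt hK.le hK hK)) hK)
  let c : Act S := ⟨(γ, θ), fun j n k => (hUS (j, n, k)).mono
    ((subset_iUnion U (j, n, k)).trans hγ) (down_fnot _), fun n L q => by
      by_cases h : ∃ q' ≤ q, q' ≤ r2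
      · obtain ⟨q', hq', hq''⟩ := h
        obtain ⟨t, ht, k, hk⟩ := exists_notMem_union hI2 (fun j => D (g j) n) L
          (fun j _ => hD1 (g j) n) q' hq''
        refine ⟨t, ht.trans hq', k, fun j hj s hs hs' => ?_⟩
        rw [hθ, hD' s (hs.trans (ht.trans hq''))] at hs'
        exact hk j hj s hs hs'
      · push Not at h
        refine ⟨q, le_rfl, 0, fun j _ s hs hs' => ?_⟩
        rw [hθ] at hs'
        obtain ⟨t, ht, u, hu, htu⟩ := hs' s le_rfl
        exact h t (ht.trans hs) (htu.trans hu.1)⟩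
  obtain ⟨r3, hr3, hr3'⟩ := mem_fimp.1 (hD2 (gr (.x b γ θ))) r2 le_rfl (isFun_gr _ r2)
  obtain ⟨r4, hr4, y, hy⟩ := mem_fex.1 hr3' r3 le_rfl
  obtain ⟨j, rfl⟩ := hg y
  refine hy r4 le_rfl (mem_iff.2 (mem_Idl_iff.2 fun q hq => ⟨q, le_rfl, {(c, j)}, 0,
    fun n _ s hs hs' => ?_⟩))
  obtain ⟨h1, h2⟩ := hs'
  obtain ⟨t, ht, u, hu, htu⟩ := h1 s le_rfl
  obtain ⟨v, hv, k, hv1, hv2⟩ := mem_fex.1 ((reg_fex _).1 u hu t htu) t le_rfl
  have hvr : v ≤ r2 := hv.trans (ht.trans (hs.trans (hq.trans (hr4.trans hr3))))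
  refine h2 (c, j) (Finset.mem_singleton_self _) v (hv.trans ht) ?_
  refine subset_meets (reg_fex _).1 (mem_fex_of k fun w hw => ⟨(reg_meets _).1 v hv1 w hw, ?_⟩)
  show w ∈ meets (S θ j n k)
  rw [hθ, hD' w (hw.trans hvr)]
  exact (reg_meets _).1 v hv2 w hw

/-- The Cohen forcing forces the sentence `Model`. -/
theorem model (hA : ℵ₀ < #A) (hK : ℵ₀ < #K)
    (hreg : ∀ T : Set K, #T < #K → ∃ γ, ∀ β ∈ T, β < γ) (hAK : #A < #K)
    (hS : ∀ D : A → ℕ → RName (Fn (Crd A K Θ)), ∃ θ, ∀ j n k,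
      meets (S θ j n k) = meets (D j n k)) (p : Fn (Crd A K Θ)) :
    p ∈ Model (Fn (Crd A K Θ)) A := by
  have hA0 : Nonempty A := mk_ne_zero_iff.1 (zero_le.trans_lt hA).ne'
  obtain ⟨e⟩ : Nonempty (A ≃ A ⊕ ℕ) := by
    rw [← Cardinal.eq, mk_sum, Cardinal.lift_id, Cardinal.lift_id, mk_nat]
    exact (add_eq_left hA.le hA.le).symm
  refine mem_fex_of (Idl aa) fun p1 _ => mem_fex_of (Idl (GG S false)) fun p2 _ =>
    mem_fex_of (Idl (GG S true)) fun p3 _ => ⟨isIdeal_II p3, isIdeal_JJ S false p3,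
      isIdeal_JJ S true p3, ?_, ?_, ?_⟩
  · refine pkLe S (fun h => ?_) e e.surjective p3
    exact absurd (mk_le_aleph0_iff.2 h) (not_le.2 hA)
  · exact not_slStarLe S false hK hreg hAK hS id Function.surjective_id p3
  · exact not_slStarLe S true hK hreg hAK hS id Function.surjective_id p3

end Pool.Agent.R592.Pk
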